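import Pool.Agent.E8helper55.DB.Stm2

/-!
# Project DB, piece CLOS: the closure bound of Nie and Wang
-/

set_option autoImplicit false

namespace Pool.Agent.E8helper13.DB

open Finset
open Pool.Agent.Results.MP_db4732_co.PolynomialCertificates
open Pool.Agent.E8helper55.DB (CLOS)

/-- the monomials of `F` are linearly independent as functions on `Y` -/
def Ind {n : ℕ} (F : Finset (Finset (Fin n))) (Y : Finset (V n)) : Prop :=
  ∀ c : Finset (Fin n) → ZMod 2,
    (∀ y ∈ Y, ∑ I ∈ F, c I * monomial (ZMod 2) I y = 0) → ∀ I ∈ F, c I = 0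

/-- lift of the variables -/
def e1 {n : ℕ} (I : Finset (Fin n)) : Finset (Fin (n + 1)) := I.map (Fin.succEmb n)

/-- lift of the variables and a new variable -/
def e2 {n : ℕ} (I : Finset (Fin n)) : Finset (Fin (n + 1)) := insert 0 (I.map (Fin.succEmb n))

theorem zero_notMem_e1 {n : ℕ} (I : Finset (Fin n)) : (0 : Fin (n + 1)) ∉ e1 I := by
  intro h
  rw [e1, mem_map] at h
  obtain ⟨a, -, ha⟩ := h
  exact Fin.succ_ne_zero a ha

theorem e1_inj {n : ℕ} : Function.Injective (e1 (n := n)) := fun _ _ h => map_injective _ h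

theorem e2_inj {n : ℕ} : Function.Injective (e2 (n := n)) := by
  intro I J h
  have h1 : (insert 0 (e1 I)).erase 0 = (insert 0 (e1 J)).erase 0 :=
    congrArg (fun s => Finset.erase s 0) h
  rw [erase_insert (zero_notMem_e1 I), erase_insert (zero_notMem_e1 J)] at h1
  exact map_injective _ h1

theorem mon1 {n : ℕ} (I : Finset (Fin n)) (a : ZMod 2) (x : V n) :
    monomial (ZMod 2) (e1 I) (Fin.cons a x : V (n + 1)) = monomial (ZMod 2) I x := by
  unfold monomial e1
  congr 1
  rw [eq_iff_iff]
  constructor
  · intro h i hi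
    have := h i.succ (by rw [mem_map]; exact ⟨i, hi, rfl⟩)
    simpa using this
  · intro h i hi
    rw [mem_map] at hi
    obtain ⟨j, hj, rfl⟩ := hi
    have := h j hj
    simpa using this

theorem mon2 {n : ℕ} (I : Finset (Fin n)) (a : ZMod 2) (x : V n) :
    monomial (ZMod 2) (e2 I) (Fin.cons a x : V (n + 1)) = a * monomial (ZMod 2) I x := by
  have h1 : monomial (ZMod 2) (e2 I) (Fin.cons a x : V (n + 1)) =
      if a = 1 then monomial (ZMod 2) (e1 I) (Fin.cons a x : V (n + 1)) else 0 := by
    unfold monomial e2 e1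
    by_cases ha : a = 1
    · rw [if_pos ha]
      congr 1
      rw [eq_iff_iff]
      constructor
      · intro h i hi
        exact h i (mem_insert_of_mem hi)
      · intro h i hi
        rw [mem_insert] at hi
        rcases hi with rfl | hi
        · simpa using ha
        · exact h i hi
    · rw [if_neg ha, if_neg]
      intro h
      apply ha
      have := h 0 (mem_insert_self _ _)
      simpa using this
  rw [h1, mon1]
  have h2 : ∀ a : ZMod 2, a = 0 ∨ a = 1 := by decide
  rcases h2 a with rfl | rfl
  · simp
  · simp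

theorem disj {n : ℕ} (A B : Finset (Finset (Fin n))) : Disjoint (A.image e1) (B.image e2) := by
  rw [disjoint_left]
  intro I h1 h2
  rw [mem_image] at h1 h2
  obtain ⟨J, -, rfl⟩ := h1
  obtain ⟨K, -, hK⟩ := h2
  apply zero_notMem_e1 J
  rw [← hK]
  exact mem_insert_self _ _

theorem sum_split {n : ℕ} (A B : Finset (Finset (Fin n))) (c : Finset (Fin (n + 1)) → ZMod 2)
    (a : ZMod 2) (x : V n) :
    ∑ I ∈ A.image e1 ∪ B.image e2, c I * monomial (ZMod 2) I (Fin.cons a x : V (n + 1)) =
      ∑ I ∈ A, c (e1 I) * monomial (ZMod 2) I x +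
        a * ∑ I ∈ B, c (e2 I) * monomial (ZMod 2) I x := by
  rw [sum_union (disj A B), sum_image (fun _ _ _ _ h => e1_inj h),
    sum_image (fun _ _ _ _ h => e2_inj h), mul_sum]
  congr 1
  · exact sum_congr rfl fun I _ => by rw [mon1]
  · exact sum_congr rfl fun I _ => by rw [mon2]; ring

/-- the points of `Y` with first coordinate `a` -/
noncomputable def sl {n : ℕ} (Y : Finset (V (n + 1))) (a : ZMod 2) : Finset (V n) :=
  univ.filter fun x => (Fin.cons a x : V (n + 1)) ∈ Y

theorem mem_sl {n : ℕ} (Y : Finset (V (n + 1))) (a : ZMod 2) (x : V n) :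
    x ∈ sl Y a ↔ (Fin.cons a x : V (n + 1)) ∈ Y := by
  simp [sl]

theorem card_sl {n : ℕ} (Y : Finset (V (n + 1))) : Y.card = (sl Y 0).card + (sl Y 1).card := by
  classical
  have h1 : ∀ a : ZMod 2, (sl Y a).card = (Y.filter fun y => y 0 = a).card := by
    intro a
    refine card_bij (fun x _ => (Fin.cons a x : V (n + 1))) ?_ ?_ ?_
    · intro x hx
      rw [mem_filter]
      exact ⟨(mem_sl Y a x).1 hx, by simp⟩
    · intro x _ x' _ h
      have : Fin.tail (Fin.cons a x : V (n + 1)) = Fin.tail (Fin.cons a x' : V (n + 1)) := by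
        rw [h]
      simpa using this
    · intro y hy
      rw [mem_filter] at hy
      refine ⟨Fin.tail y, ?_, ?_⟩
      · rw [mem_sl, ← hy.2, Fin.cons_self_tail]
        exact hy.1
      · rw [← hy.2, Fin.cons_self_tail]
  rw [h1, h1, ← card_union_of_disjoint]
  · congr 1
    ext y
    rw [mem_union, mem_filter, mem_filter]
    have h2 : ∀ a : ZMod 2, a = 0 ∨ a = 1 := by decide
    rcases h2 (y 0) with h | h
    · simp [h]
    · simp [h]
  · rw [disjoint_left]
    intro y h2 h3
    rw [mem_filter] at h2 h3
    exact absurd (h2.2.symm.trans h3.2) (by decide)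

theorem arith (u i v1 v0 : ℕ) (h1 : i ≤ u) (h2 : v0 ≤ v1) :
    (u + i) * (v1 + v0) ≤ 2 * (u * v1 + i * v0) := by
  obtain ⟨a, rfl⟩ := Nat.exists_eq_add_of_le h1
  obtain ⟨b, rfl⟩ := Nat.exists_eq_add_of_le h2
  have h3 : 0 ≤ a * b := Nat.zero_le _
  nlinarith

theorem pascal (n d : ℕ) : ∑ i ∈ range (d + 1 + 1), (n + 1).choose i =
    ∑ i ∈ range (d + 1 + 1), n.choose i + ∑ i ∈ range (d + 1), n.choose i := by
  rw [sum_range_succ' (fun i => (n + 1).choose i) (d + 1),
    sum_range_succ' (fun i => n.choose i) (d + 1)]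
  have h1 : ∑ i ∈ range (d + 1), (n + 1).choose (i + 1) =
      ∑ i ∈ range (d + 1), n.choose i + ∑ i ∈ range (d + 1), n.choose (i + 1) := by
    rw [← sum_add_distrib]
    exact sum_congr rfl fun i _ => Nat.choose_succ_succ n i
  rw [h1]
  simp only [Nat.choose_zero_right]
  ring

theorem step2 : ∀ (n d : ℕ) (Y : Finset (V n)), ∃ F : Finset (Finset (Fin n)),
    (∀ I ∈ F, I.card ≤ d) ∧ Ind F Y ∧
      Y.card * ∑ i ∈ range (d + 1), n.choose i ≤ 2 ^ n * F.card := by
  classical
  intro n
  induction n with
  | zero =>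
    intro d Y
    rcases Y.eq_empty_or_nonempty with rfl | ⟨y, hy⟩
    · exact ⟨∅, by simp, fun c _ I hI => by simp at hI, by simp⟩
    · refine ⟨{∅}, by simp, ?_, ?_⟩
      · intro c h I hI
        have h1 := h y hy
        rw [mem_singleton] at hI
        subst hI
        simpa [monomial] using h1
      · have h1 : Y.card ≤ 1 := by
          rw [card_le_one]
          intro a _ b _
          exact Subsingleton.elim a b
        have h2 : ∑ i ∈ range (d + 1), Nat.choose 0 i = 1 := by
          rw [sum_eq_single 0]
          · rfl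
          · intro b _ hb
            exact Nat.choose_eq_zero_of_lt (Nat.pos_of_ne_zero hb)
          · intro h
            exact absurd (mem_range.2 (Nat.succ_pos d)) h
        rw [h2]
        simpa using h1
  | succ n ih =>
    intro d Y
    cases d with
    | zero =>
      rcases Y.eq_empty_or_nonempty with rfl | ⟨y, hy⟩
      · exact ⟨∅, by simp, fun c _ I hI => by simp at hI, by simp⟩
      · refine ⟨{∅}, by simp, ?_, ?_⟩
        · intro c h I hI
          have h1 := h y hy
          rw [mem_singleton] at hI
          subst hI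
          simpa [monomial] using h1
        · have h1 : Y.card ≤ 2 ^ (n + 1) := by
            have := card_le_univ Y
            simpa [ZMod.card] using this
          simpa using h1
    | succ d =>
      obtain ⟨A, hA1, hA2, hA3⟩ := ih (d + 1) (sl Y 0 ∪ sl Y 1)
      obtain ⟨B, hB1, hB2, hB3⟩ := ih d (sl Y 0 ∩ sl Y 1)
      refine ⟨A.image e1 ∪ B.image e2, ?_, ?_, ?_⟩
      · intro I hI
        rw [mem_union, mem_image, mem_image] at hI
        rcases hI with ⟨J, hJ, rfl⟩ | ⟨J, hJ, rfl⟩
        · rw [e1, card_map]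
          exact hA1 J hJ
        · rw [e2]
          refine (card_insert_le _ _).trans ?_
          rw [card_map]
          exact Nat.succ_le_succ (hB1 J hJ)
      · intro c h
        have hB : ∀ I ∈ B, c (e2 I) = 0 := by
          refine hB2 (fun I => c (e2 I)) ?_
          intro x hx
          rw [mem_inter, mem_sl, mem_sl] at hx
          have h1 := h _ hx.1
          have h2 := h _ hx.2
          rw [sum_split] at h1 h2
          rw [zero_mul, add_zero] at h1
          rw [h1, one_mul, zero_add] at h2
          exact h2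
        have hA : ∀ I ∈ A, c (e1 I) = 0 := by
          refine hA2 (fun I => c (e1 I)) ?_
          intro x hx
          have h0 : ∑ I ∈ B, c (e2 I) * monomial (ZMod 2) I x = 0 :=
            sum_eq_zero fun I hI => by rw [hB I hI, zero_mul]
          rw [mem_union, mem_sl, mem_sl] at hx
          rcases hx with hx | hx
          · have h1 := h _ hx
            rw [sum_split, h0, mul_zero, add_zero] at h1
            exact h1
          · have h1 := h _ hx
            rw [sum_split, h0, mul_zero, add_zero] at h1
            exact h1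
        intro I hI
        rw [mem_union, mem_image, mem_image] at hI
        rcases hI with ⟨J, hJ, rfl⟩ | ⟨J, hJ, rfl⟩
        · exact hA J hJ
        · exact hB J hJ
      · rw [card_union_of_disjoint (disj A B), card_image_of_injective _ e1_inj,
          card_image_of_injective _ e2_inj, pascal, card_sl Y, ← card_union_add_card_inter]
        have h1 : (sl Y 0 ∩ sl Y 1).card ≤ (sl Y 0 ∪ sl Y 1).card :=
          card_le_card (inter_subset_left.trans subset_union_left)
        have h2 : ∑ i ∈ range (d + 1), n.choose i ≤ ∑ i ∈ range (d + 1 + 1), n.choose i :=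
          sum_le_sum_of_subset (range_mono (Nat.le_succ _))
        refine (arith _ _ _ _ h1 h2).trans ?_
        calc 2 * ((sl Y 0 ∪ sl Y 1).card * ∑ i ∈ range (d + 1 + 1), n.choose i +
              (sl Y 0 ∩ sl Y 1).card * ∑ i ∈ range (d + 1), n.choose i) ≤
              2 * (2 ^ n * A.card + 2 ^ n * B.card) :=
              Nat.mul_le_mul_left _ (Nat.add_le_add hA3 hB3)
          _ = 2 ^ (n + 1) * (A.card + B.card) := by ring

theorem clos_holds : CLOS := by
  classical
  intro n d E Y hY
  obtain ⟨F, hF1, hF2, hF3⟩ := step2 n d Y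
  refine hF3.trans (Nat.mul_le_mul_left _ ?_)
  -- the extension by zero
  let ex : (F → ZMod 2) → Finset (Fin n) → ZMod 2 := fun c I =>
    if h : I ∈ F then c ⟨I, h⟩ else 0
  let Φ : (F → ZMod 2) → (E → ZMod 2) := fun c x =>
    ∑ I ∈ F, ex c I * monomial (ZMod 2) I x
  have hinj : Function.Injective Φ := by
    intro c c' hcc
    have h1 : ∀ I ∈ F, ex c I - ex c' I = 0 := by
      refine hF2 (fun I => ex c I - ex c' I) ?_
      intro y hy
      have hp : (fun y => ∑ I ∈ F, (ex c I - ex c' I) * monomial (ZMod 2) I y) ∈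
          polys (ZMod 2) n d := by
        have h2 : (fun y => ∑ I ∈ F, (ex c I - ex c' I) * monomial (ZMod 2) I y) =
            ∑ I ∈ F, (ex c I - ex c' I) • monomial (ZMod 2) I := by
          funext y
          rw [Finset.sum_apply]
          rfl
        rw [h2]
        exact Submodule.sum_mem _ fun I hI => Submodule.smul_mem _ _
          (Submodule.subset_span ⟨I, hF1 I hI, rfl⟩)
      refine hY y hy _ hp ?_
      intro x hx
      have h3 : Φ c ⟨x, hx⟩ = Φ c' ⟨x, hx⟩ := by rw [hcc]
      have h4 : ∑ I ∈ F, (ex c I - ex c' I) * monomial (ZMod 2) I x =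
          Φ c ⟨x, hx⟩ - Φ c' ⟨x, hx⟩ := by
        simp only [Φ]
        rw [← sum_sub_distrib]
        exact sum_congr rfl fun I _ => by ring
      show ∑ I ∈ F, (ex c I - ex c' I) * monomial (ZMod 2) I x = 0
      rw [h4, h3, sub_self]
    funext I
    have h2 := h1 I I.2
    simp only [ex, dif_pos I.2] at h2
    exact sub_eq_zero.1 h2
  have h2 := Fintype.card_le_of_injective Φ hinj
  rw [Fintype.card_fun, Fintype.card_fun, ZMod.card, Fintype.card_coe, Fintype.card_coe] at h2
  exact (Nat.pow_le_pow_iff_right (by norm_num)).1 h2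

end Pool.Agent.E8helper13.DB
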